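import Pool.Agent.V11122.Hv.Lin

/-!
# The middle level becomes linear after the deletion of a few lines

The lines are `y = a l * x + B l`, `l : Fin n`. Definitions (all from the starting files):

* `Simple a B`: no two of the lines coincide and no three pass through a common point (parallel
  lines are allowed); `psi a B k`: the number of abscissae near which the `k`-level does not follow a
  single line, i.e. the number of vertices of the `k`-level
  (`Pool/Agent/Results/MP_a08d0a_co/SmoothedLevel.lean`),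
* `sub f R`: for a set `R` of indices, the family `f` restricted to `R`
  (`Pool/Agent/Y344/KD/Lines.lean`).
-/

set_option autoImplicit false

open Finset

namespace Pool.Agent.Results.MP_a08d0a_co.MiddleLevelDeletions

open Pool.Agent.Results.MP_a08d0a_co.SmoothedLevel (Simple psi)

open Pool.Agent.Y344.KD (sub)

open Pool.Agent.V11122.Hv Pool.Agent.Y344.KD in
/-- There is a constant `C` such that for all `n` lines, no two equal and no three concurrent, every
`δ ∈ (0, 1]` and every finite set `K` of integers one can delete at most `δ n` of the lines so that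
for the `m` remaining lines the levels `⌊m/2⌋ + c`, `c ∈ K`, have together at most
`C n |K| δ^(-1/3)` vertices. -/
theorem result : ∃ C : ℝ, 0 < C ∧ ∀ (n : ℕ) (a B : Fin n → ℝ), Simple a B →
    ∀ δ : ℝ, 0 < δ → δ ≤ 1 → ∀ K : Finset ℤ, ∃ R : Finset (Fin n), (1 - δ) * n ≤ #R ∧
      (∀ k < #R, psi (sub a R) (sub B R) k ≠ ⊤) ∧
      ∑ k ∈ (range #R).filter (fun k : ℕ => (k : ℤ) - ((#R / 2 : ℕ) : ℤ) ∈ K),
        ((psi (sub a R) (sub B R) k).toNat : ℝ) ≤ C * (n * #K * δ ^ (-(1 / 3) : ℝ)) := by
  classical
  refine ⟨2 * 936, by norm_num, ?_⟩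
  intro n a B hS δ hδ hδ1 K
  obtain ⟨P, hGP, hP⟩ := exists_GP hS
  obtain ⟨D, hD1, hD2, hD3⟩ := delete hGP (K.image (fun c => 2 * c)) hδ hδ1
  have hinj : Function.Injective (fun c : ℤ => 2 * c) := fun x y h => by
    simp only at h
    omega
  rw [sum_image (fun x _ y _ h => hinj h), card_image_of_injective _ hinj] at hD3
  have hD : D.card ≤ n := by simpa using card_le_univ D
  have hcc : Dᶜ.card = n - D.card := by rw [card_compl, Fintype.card_fin]
  refine ⟨Dᶜ, ?_, fun k hk => (toNat_le (psi_cnt hS hP D hk)).1, ?_⟩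
  · rw [hcc, Nat.cast_sub hD]
    linarith
  · calc ∑ k ∈ (range #Dᶜ).filter (fun k : ℕ => (k : ℤ) - ((#Dᶜ / 2 : ℕ) : ℤ) ∈ K),
          ((psi (sub a Dᶜ) (sub B Dᶜ) k).toNat : ℝ)
        ≤ ∑ k ∈ (range #Dᶜ).filter (fun k : ℕ => (k : ℤ) - ((#Dᶜ / 2 : ℕ) : ℤ) ∈ K),
            (2 * (hw P (2 * ((k : ℤ) - ((#Dᶜ / 2 : ℕ) : ℤ))) D : ℝ)) := by
          apply sum_le_sum
          intro k hk
          rw [mem_filter, mem_range] at hk
          have h1 := (toNat_le (psi_cnt hS hP D hk.1)).2
          have h2 : cnt P k D ≤ hw P (2 * ((k : ℤ) - ((#Dᶜ / 2 : ℕ) : ℤ))) D :=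
            cnt_le_hw P D (Or.inl (by ring))
          have h3 : (if k = 0 then 0 else cnt P (k - 1) D) ≤
              hw P (2 * ((k : ℤ) - ((#Dᶜ / 2 : ℕ) : ℤ))) D := by
            split_ifs with h
            · exact Nat.zero_le _
            · apply cnt_le_hw P D
              right
              omega
          have h4 : (psi (sub a Dᶜ) (sub B Dᶜ) k).toNat ≤
              2 * hw P (2 * ((k : ℤ) - ((#Dᶜ / 2 : ℕ) : ℤ))) D := by omega
          exact_mod_cast h4
      _ = ∑ c ∈ ((range #Dᶜ).filter (fun k : ℕ => (k : ℤ) - ((#Dᶜ / 2 : ℕ) : ℤ) ∈ K)).image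
            (fun k : ℕ => (k : ℤ) - ((#Dᶜ / 2 : ℕ) : ℤ)), (2 * (hw P (2 * c) D : ℝ)) := by
          rw [sum_image]
          intro x _ y _ h
          simp only at h
          omega
      _ ≤ ∑ c ∈ K, (2 * (hw P (2 * c) D : ℝ)) := by
          apply sum_le_sum_of_subset_of_nonneg
          · intro c hc
            obtain ⟨k, hk, rfl⟩ := mem_image.mp hc
            exact (mem_filter.mp hk).2
          · intro c _ _
            positivity
      _ ≤ _ := by
          rw [← mul_sum]
          calc 2 * ∑ c ∈ K, (hw P (2 * c) D : ℝ) ≤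
                2 * (#K * (936 * (n * δ ^ (-(1 / 3) : ℝ)))) := by linarith
            _ = _ := by ring

end Pool.Agent.Results.MP_a08d0a_co.MiddleLevelDeletions
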