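import Pool.Agent.V11262.PL.Unif

/-!
# A single level of a line arrangement: random slopes, and small perturbations

`ht a b l x = a l * x + b l` is the height of the line number `l` above `x`. `Simple`, `crossings`
and `psi` (the complexity of a level) are those of the starting result `SmoothedLevel`, which
treats random intercepts. The projective map `(x, y) ↦ (1 / x, y / x)` exchanges slopes and
intercepts and turns the `k`-level into pieces of the `k`-level and of the `(n - 1 - k)`-level.
-/

set_option autoImplicit false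

namespace Pool.Agent.Results.MP_a08d0a_co.PerturbedLines

open Finset MeasureTheory
open Pool.Agent.Results.MP_a08d0a_co.SmoothedLevel (Simple crossings psi)
open scoped ENNReal

/-- (1) Random slopes: `n` lines with arbitrary distinct intercepts `b i` and independent random
slopes `A i`, the law of each slope lives on `[-M, M]` and gives every interval of length `h` at
most `D h`. Almost surely the arrangement is simple; the number of crossings with exactly `k` lines
below has expectation at most `16 D M n`, the complexity of the `k`-level at most `32 D M n`.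
(2) Small perturbations of the intercepts: if the intercepts of `n` arbitrary lines lie in
`[q - M, q + M]` and `0 < ε ≤ 1`, then for every finite set `K` of levels one can change each
intercept by at most `ε M` such that the new arrangement is simple and its levels in `K` have
together at most `16 |K| n / ε` vertices. (3) The same for the slopes, with `32` for `16`, if the
intercepts are distinct. -/
theorem result :
    (∀ (n : ℕ) (b : Fin n → ℝ), Function.Injective b →
      ∀ (ν : Fin n → Measure ℝ) [∀ i, IsProbabilityMeasure (ν i)] (D M : ℝ),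
      (∀ i, ∀ s t : ℝ, s ≤ t → ν i (Set.Icc s t) ≤ ENNReal.ofReal (D * (t - s))) →
      (∀ i, ∀ᵐ x ∂ν i, |x| ≤ M) →
      (∀ᵐ A ∂Measure.pi ν, Simple A b) ∧
      (∀ k : ℕ, Measurable (fun A : Fin n → ℝ => ((crossings A b k).ncard : ℝ≥0∞)) ∧
        ∫⁻ A, ((crossings A b k).ncard : ℝ≥0∞) ∂Measure.pi ν ≤
          ENNReal.ofReal (16 * D * M * n)) ∧
      ∀ k < n, (∀ᵐ A ∂Measure.pi ν, psi A b k ≤
          ((crossings A b k).ncard + (if k = 0 then 0 else (crossings A b (k - 1)).ncard) : ℕ)) ∧
        ∫⁻ A, (psi A b k : ℝ≥0∞) ∂Measure.pi ν ≤ ENNReal.ofReal (32 * D * M * n)) ∧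
    (∀ (n : ℕ) (a b : Fin n → ℝ) (q M ε : ℝ), 0 < M → (∀ i, |b i - q| ≤ M) → 0 < ε → ε ≤ 1 →
      ∀ K : Finset ℕ, (∀ k ∈ K, k < n) →
        ∃ b' : Fin n → ℝ, (∀ i, |b' i - b i| ≤ ε * M) ∧ Simple a b' ∧
          ∑ k ∈ K, (psi a b' k : ℝ≥0∞) ≤ ENNReal.ofReal (16 * K.card * n / ε)) ∧
    (∀ (n : ℕ) (a b : Fin n → ℝ) (p M ε : ℝ), Function.Injective b → 0 < M →
      (∀ i, |a i - p| ≤ M) → 0 < ε → ε ≤ 1 → ∀ K : Finset ℕ, (∀ k ∈ K, k < n) →
        ∃ a' : Fin n → ℝ, (∀ i, |a' i - a i| ≤ ε * M) ∧ Simple a' b ∧
          ∑ k ∈ K, (psi a' b k : ℝ≥0∞) ≤ ENNReal.ofReal (32 * K.card * n / ε)) := by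
  refine ⟨?_, ?_, ?_⟩
  · intro n b hb ν _ D M hν hM
    have hS : ∀ᵐ A ∂Measure.pi ν, Simple A b := by
      filter_upwards [Pool.Agent.Results.MP_a08d0a_co.SmoothedLevel.ae_simple hν b] with A hA
      exact V11262.PL.dual_simple hb hA
    refine ⟨hS, fun k => ⟨V11262.PL.measurable_slopes b k, V11262.PL.slopes_cross hν hM hb k⟩, ?_⟩
    intro k hk
    refine ⟨?_, ?_⟩
    · filter_upwards [hS] with A hA
      exact Pool.Agent.Results.MP_a08d0a_co.SmoothedLevel.psi_le hA hk
    · have h1 := V11262.PL.sum_psi_slopes hν hM hb {k}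
      rw [card_singleton, Nat.cast_one, one_mul] at h1
      refine le_trans (lintegral_mono_ae ?_) h1
      filter_upwards [hS] with A hA
      rw [sum_singleton]
      exact V11262.PL.psi_cast hA hk
  · intro n a b q M ε hM hb hε hε1 K hK
    exact V11262.PL.perturb_intercepts a b hM hb hε hε1 K hK
  · intro n a b p M ε hb hM ha hε hε1 K hK
    exact V11262.PL.perturb_slopes a b hb hM ha hε hε1 K hK

end Pool.Agent.Results.MP_a08d0a_co.PerturbedLines
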