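import Pool.Agent.V11122.Hv.Rate

/-!
# The middle levels after random deletions of lines

The lines are `y = a l * x + B l`, `l : Fin n`. Definitions from the starting files: `Simple a B`, `psi a B k` (number of
vertices of the `k`-level, `Pool/Agent/Results/MP_a08d0a_co/SmoothedLevel.lean`), `sub f R` (restriction of a family to
the index set `R`, `Pool/Agent/Y344/KD/Lines.lean`).
-/

set_option autoImplicit false

open Finset

namespace Pool.Agent.Results.MP_a08d0a_co.RandomDeletionsMiddle

open Pool.Agent.Results.MP_a08d0a_co.SmoothedLevel (Simple psi)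

open Pool.Agent.Y344.KD (sub)

/-- The number of vertices of the level `⌊m/2⌋ + c` of the `m` lines with index in `R` (`0` if there is no such
level, that is, unless `0 ≤ ⌊m/2⌋ + c < m`). -/
noncomputable def vertices {n : ℕ} (a B : Fin n → ℝ) (c : ℤ) (R : Finset (Fin n)) : ℕ :=
  if 0 ≤ ((#R / 2 : ℕ) : ℤ) + c ∧ ((#R / 2 : ℕ) : ℤ) + c < #R then
    (psi (sub a R) (sub B R) (((#R / 2 : ℕ) : ℤ) + c).toNat).toNat else 0

open Pool.Agent.V11122.Hv Pool.Agent.Y344.KD in
/-- There is a constant `C` such that for all `n` lines, no two equal and no three concurrent, every `r ∈ (0, 1/2]` and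
every integer `c`: if every line is deleted independently with probability `r`, then the expected number of vertices of
the level `⌊m/2⌋ + c` of the `m` remaining lines is at most `C n^(7/6) r^(-1/6)`. -/
theorem result : ∃ C : ℝ, 0 < C ∧ ∀ (n : ℕ) (a B : Fin n → ℝ), Simple a B →
    ∀ r : ℝ, 0 < r → r ≤ 1 / 2 → ∀ c : ℤ,
      (∀ R : Finset (Fin n), ∀ k < #R, psi (sub a R) (sub B R) k ≠ ⊤) ∧
      ∑ R : Finset (Fin n), (1 - r) ^ #R * r ^ (n - #R) * (vertices a B c R : ℝ) ≤
        C * ((n : ℝ) ^ (7 / 6 : ℝ) * r ^ (-(1 / 6) : ℝ)) := by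
  classical
  refine ⟨2 * 1680, by norm_num, ?_⟩
  intro n a B hS r hr hr1 c
  obtain ⟨P, hGP, hP⟩ := exists_GP hS
  have hfin : ∀ R : Finset (Fin n), ∀ k < #R, psi (sub a R) (sub B R) k ≠ ⊤ := by
    intro R k hk
    have := (toNat_le (psi_cnt hS hP Rᶜ (k := k) (by rw [compl_compl]; exact hk))).1
    rw [compl_compl] at this
    exact this
  refine ⟨hfin, ?_⟩
  have hX : 0 ≤ (n : ℝ) ^ (7 / 6 : ℝ) * r ^ (-(1 / 6) : ℝ) := by positivity
  rcases Nat.eq_zero_or_pos n with h0 | hn
  · have hz : ∀ R : Finset (Fin n), (1 - r) ^ #R * r ^ (n - #R) * (vertices a B c R : ℝ) = 0 := by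
      intro R
      have hR : #R = 0 := by
        have := card_le_univ R
        rw [Fintype.card_fin] at this
        omega
      have : vertices a B c R = 0 := by
        unfold vertices
        rw [if_neg]
        rw [hR]
        omega
      rw [this]
      simp
    rw [sum_eq_zero fun R _ => hz R]
    positivity
  · have key : ∀ R : Finset (Fin n), vertices a B c R ≤ 2 * hw P (2 * c) Rᶜ := by
      intro R
      unfold vertices
      split_ifs with h
      · obtain ⟨k, hk⟩ : ∃ k : ℕ, (k : ℤ) = ((#R / 2 : ℕ) : ℤ) + c :=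
          ⟨(((#R / 2 : ℕ) : ℤ) + c).toNat, Int.toNat_of_nonneg h.1⟩
        rw [← hk, Int.toNat_natCast]
        have hkR : k < #R := by
          have := h.2
          rw [← hk] at this
          exact_mod_cast this
        have h1 := (toNat_le (psi_cnt hS hP Rᶜ (k := k) (by rw [compl_compl]; exact hkR))).2
        rw [compl_compl] at h1
        have h2 : cnt P k Rᶜ ≤ hw P (2 * c) Rᶜ :=
          cnt_le_hw P Rᶜ (Or.inl (by rw [compl_compl]; exact hk))
        have h3 : (if k = 0 then 0 else cnt P (k - 1) Rᶜ) ≤ hw P (2 * c) Rᶜ := by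
          split_ifs with h0
          · exact Nat.zero_le _
          · apply cnt_le_hw P Rᶜ
            right
            rw [compl_compl]
            omega
        omega
      · exact Nat.zero_le _
    have hb := hw_bound hGP hn (2 * c) hr hr1
    calc ∑ R : Finset (Fin n), (1 - r) ^ #R * r ^ (n - #R) * (vertices a B c R : ℝ)
        ≤ ∑ R : Finset (Fin n), wt r Rᶜ * (2 * hw P (2 * c) Rᶜ : ℝ) := by
          apply sum_le_sum
          intro R _
          have e : (1 - r) ^ #R * r ^ (n - #R) = wt r Rᶜ := by
            unfold wt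
            have hR : #R ≤ n := by simpa using card_le_univ R
            rw [card_compl, Fintype.card_fin, Nat.sub_sub_self hR]
            ring
          rw [e]
          apply mul_le_mul_of_nonneg_left _ (wt_nonneg hr.le (by linarith) Rᶜ)
          exact_mod_cast key R
      _ = ∑ D : Finset (Fin n), wt r D * (2 * hw P (2 * c) D : ℝ) :=
          Fintype.sum_bijective compl compl_bijective _ _ fun R => rfl
      _ = 2 * ∑ D : Finset (Fin n), wt r D * hw P (2 * c) D := by
          rw [mul_sum]
          apply sum_congr rfl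
          intro D _
          ring
      _ ≤ _ := by linarith

end Pool.Agent.Results.MP_a08d0a_co.RandomDeletionsMiddle
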