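import Pool.Agent.V11262.PL.Piv4

/-!
# A single level of an arrangement of lines through arbitrary pivots, with random directions

`Simple`, `crossings` and `psi` (the complexity of a level) are those of the starting result
`SmoothedLevel`, which treats random intercepts. The line number `l` is
`y = q l + A l * (x - p l)`: it passes through the pivot `(p l, q l)` and has slope `A l`.
The proof counts, for one line and fixed slopes of the others, the measure of the slopes for which
it meets another line on the level: at the abscissa `p i + t` the slope changes at the rate `1 / t`,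
and above almost every abscissa only one of the other lines qualifies, whence the logarithm.
-/

set_option autoImplicit false

namespace Pool.Agent.Results.MP_a08d0a_co.RandomDirections

open Finset MeasureTheory
open Pool.Agent.Results.MP_a08d0a_co.SmoothedLevel (Simple crossings psi)
open scoped ENNReal

/-- `n` lines through arbitrary points `(p i, q i)` of the plane, any two of them at scaled distance
`|p i - p j| + |q i - q j| / M` between `g` and `G`, with independent random slopes `A i`; the law
of each slope has a density at most `D` and lives on `[-M, M]`. Almost surely no two lines coincide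
and no three meet. For every `k` the number of crossings with exactly `k` lines below has
expectation at most `D M n (4 log (4 n ^ 2 G / g) + 6)`, and the expected complexity of the
`k`-level is at most `D M n (8 log (4 n ^ 2 G / g) + 12)`. -/
theorem result (n : ℕ) (p q : Fin n → ℝ) (ν : Fin n → Measure ℝ) [∀ i, IsProbabilityMeasure (ν i)]
    (D M g G : ℝ) (hM : 0 < M) (hg : 0 < g)
    (hpq : ∀ i j, i ≠ j → M * g ≤ M * |p i - p j| + |q i - q j| ∧
      M * |p i - p j| + |q i - q j| ≤ M * G)
    (hν : ∀ i, ν i ≤ ENNReal.ofReal D • volume) (hA : ∀ i, ∀ᵐ x ∂ν i, |x| ≤ M) :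
    (∀ᵐ A ∂Measure.pi ν, Simple A (fun l => q l - A l * p l)) ∧
    (∀ k : ℕ, Measurable (fun A : Fin n → ℝ =>
        ((crossings A (fun l => q l - A l * p l) k).ncard : ℝ≥0∞)) ∧
      ∫⁻ A, ((crossings A (fun l => q l - A l * p l) k).ncard : ℝ≥0∞) ∂Measure.pi ν ≤
        ENNReal.ofReal (D * M * n * (4 * Real.log (4 * n ^ 2 * G / g) + 6))) ∧
    ∀ k < n, (∀ᵐ A ∂Measure.pi ν, psi A (fun l => q l - A l * p l) k ≤
        ((crossings A (fun l => q l - A l * p l) k).ncard +
          (if k = 0 then 0 else (crossings A (fun l => q l - A l * p l) (k - 1)).ncard) : ℕ)) ∧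
      ∫⁻ A, (psi A (fun l => q l - A l * p l) k : ℝ≥0∞) ∂Measure.pi ν ≤
        ENNReal.ofReal (D * M * n * (8 * Real.log (4 * n ^ 2 * G / g) + 12)) := by
  have hpq' : ∀ i j, i ≠ j → p i = p j → q i ≠ q j := by
    intro i j hij h1 h2
    have h3 := (hpq i j hij).1
    rw [h1, h2, sub_self, sub_self, abs_zero, mul_zero, add_zero] at h3
    have : 0 < M * g := by positivity
    linarith
  refine ⟨V11262.PL.piv_simple hν hpq', fun k => ⟨V11262.PL.measurable_piv p q k,
    V11262.PL.piv_cross hν hM hg hpq hA k⟩, fun k hk => ⟨?_, V11262.PL.piv_psi hν hM hg hpq hA hk⟩⟩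
  filter_upwards [V11262.PL.piv_simple hν hpq'] with A hA'
  exact Pool.Agent.Results.MP_a08d0a_co.SmoothedLevel.psi_le hA' hk

end Pool.Agent.Results.MP_a08d0a_co.RandomDirections
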